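import Pool.Agent.W187.UR.Stm2

/-!
# Project UR (helper187), part SING: the contribution of the rightmost real zero to the rotated mean
-/

set_option autoImplicit false

namespace Pool.Agent.W125.UR

open Complex MeasureTheory Filter Topology Set
open scoped Interval
open Pool.Agent.W189.ML Pool.Agent.W189.LC Pool.Agent.W187.UR

/-- the difference quotient `(e^{z₀ t} - 1) / t` -/
noncomputable def hc (z₀ : ℂ) (t : ℝ) : ℂ := if 0 < t then (exp (z₀ * t) - 1) / t else 0

theorem hc_norm_le (z₀ : ℂ) (t : ℝ) : ‖hc z₀ t‖ ≤ ‖z₀‖ * Real.exp (‖z₀‖ * t) := by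
  unfold hc
  split_ifs with ht
  · rw [norm_div, Complex.norm_real, Real.norm_eq_abs, abs_of_pos ht, div_le_iff₀ ht]
    have h1 := Complex.norm_exp_sub_sum_le_norm_mul_exp (z₀ * t) 1
    simp only [Finset.range_one, Finset.sum_singleton, pow_zero, Nat.factorial_zero, Nat.cast_one,
      div_one, pow_one] at h1
    have h2 : ‖z₀ * (t : ℂ)‖ = ‖z₀‖ * t := by
      rw [norm_mul, Complex.norm_real, Real.norm_eq_abs, abs_of_pos ht]
    rw [h2] at h1
    linarith
  · rw [norm_zero]
    positivity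

theorem hc_measurable (z₀ : ℂ) : Measurable (hc z₀) := by
  unfold hc
  refine Measurable.ite measurableSet_Ioi ?_ measurable_const
  fun_prop

theorem frul3 {z z₀ : ℂ} (h1 : 1 ≤ z.re) (h2 : 1 ≤ (z - z₀).re) :
    log z - log (z - z₀) = ∫ t in Ioi (0 : ℝ), exp (-(z * t)) * hc z₀ t := by
  rw [frullani2 h1, frullani2 h2, ← integral_sub (cquot_int h1) (cquot_int h2)]
  refine setIntegral_congr_fun measurableSet_Ioi fun t ht => ?_
  have ht' : (0 : ℝ) < t := ht
  have htc : (t : ℂ) ≠ 0 := by exact_mod_cast ht'.ne'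
  have e : exp (-((z - z₀) * t)) = exp (-(z * t)) * exp (z₀ * t) := by
    rw [← Complex.exp_add]
    congr 1
    ring
  unfold hc
  rw [if_pos ht', e]
  field_simp
  ring

theorem J_hc {b : ℝ} {z₀ : ℂ} (hb0 : 0 ≤ b) (hb : ‖z₀‖ + 1 ≤ b) :
    J b (fun z => ∫ t in Ioi (0 : ℝ), exp (-(z * t)) * hc z₀ t) =
      ∫ t in Ioi (0 : ℝ), hc z₀ t * (om t : ℂ) := by
  have e1 := J_swap (a := b) hb0 (μ := volume.restrict (Ioi (0 : ℝ)))
    (F := fun t z => exp (-(z * t)) * hc z₀ t) (g := fun t => ‖z₀‖ * Real.exp (-t))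
    ((integrableOn_exp_neg_Ioi 0).const_mul _) ?_ ?_
  · rw [e1]
    refine setIntegral_congr_fun measurableSet_Ioi fun t _ => ?_
    have e3 : (fun z : ℂ => exp (-(z * t)) * hc z₀ t) =
        fun z => hc z₀ t * exp (-(z * ((t : ℝ) : ℂ))) := by
      funext z
      rw [mul_comm]
    rw [e3, J_const_mul, J_exp]
    rfl
  · refine Measurable.stronglyMeasurable ?_
    unfold Function.uncurry
    refine Measurable.mul (by fun_prop) ?_
    exact (hc_measurable z₀).comp measurable_fst
  · intro t z hz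
    by_cases ht : 0 < t
    · rw [norm_mul, Complex.norm_exp]
      have h2 : (-(z * t)).re = -(z.re * t) := by rw [Complex.neg_re, Complex.re_mul_ofReal]
      rw [h2]
      calc Real.exp (-(z.re * t)) * ‖hc z₀ t‖ ≤
            Real.exp (-(b * t)) * (‖z₀‖ * Real.exp (‖z₀‖ * t)) := by
            refine mul_le_mul ?_ (hc_norm_le z₀ t) (norm_nonneg _) (Real.exp_pos _).le
            apply Real.exp_le_exp.2
            have := hz.1
            nlinarith
        _ = ‖z₀‖ * Real.exp (-(b * t) + ‖z₀‖ * t) := by rw [Real.exp_add]; ring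
        _ ≤ ‖z₀‖ * Real.exp (-t) := by
            refine mul_le_mul_of_nonneg_left ?_ (norm_nonneg _)
            apply Real.exp_le_exp.2
            nlinarith
    · unfold hc
      rw [if_neg ht, mul_zero, norm_zero]
      positivity

theorem om_cont : ContinuousOn (fun u : ℝ => (om u : ℂ)) (Ioi 0) := by
  intro u hu
  have hu' : (0 : ℝ) < u := hu
  have h1 := Real.Gamma_pos_of_pos (by linarith : 0 < 1 + u)
  have h2 : ContinuousAt Real.Gamma (1 + u) := by
    refine (Real.differentiableAt_Gamma fun m => ?_).continuousAt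
    have : (0 : ℝ) ≤ m := m.cast_nonneg
    linarith
  have h3 : ContinuousAt (fun u : ℝ => Real.Gamma (1 + u)) u :=
    ContinuousAt.comp (f := fun u : ℝ => 1 + u) (g := Real.Gamma) h2 (by fun_prop)
  unfold om
  exact (Complex.continuous_ofReal.continuousAt.comp (h3.inv₀ h1.ne')).continuousWithinAt

theorem hcom_int (z₀ : ℂ) : IntegrableOn (fun t : ℝ => hc z₀ t * (om t : ℂ)) (Ioi 0) := by
  refine Integrable.mono' ((integrableOn_exp_neg_Ioi 0).const_mul
    (‖z₀‖ * (Real.exp (Real.exp (‖z₀‖ + 1)) + 1))) ?_ ?_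
  · exact (hc_measurable z₀).aestronglyMeasurable.mul
      (om_cont.aestronglyMeasurable measurableSet_Ioi)
  · filter_upwards [ae_restrict_mem measurableSet_Ioi] with t ht
    have ht' : (0 : ℝ) < t := ht
    have h1 := om_le (a := ‖z₀‖ + 1) (v := t) (by positivity) ht'.le
    have h2 := om_nonneg ht'.le
    rw [norm_mul, Complex.norm_real, Real.norm_eq_abs, abs_of_nonneg h2]
    calc ‖hc z₀ t‖ * om t ≤ (‖z₀‖ * Real.exp (‖z₀‖ * t)) *
          ((Real.exp (Real.exp (‖z₀‖ + 1)) + 1) * Real.exp (-((‖z₀‖ + 1) * t))) :=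
          mul_le_mul (hc_norm_le z₀ t) h1 h2 (by positivity)
      _ = ‖z₀‖ * (Real.exp (Real.exp (‖z₀‖ + 1)) + 1) *
          (Real.exp (‖z₀‖ * t) * Real.exp (-((‖z₀‖ + 1) * t))) := by ring
      _ = _ := by
          rw [← Real.exp_add]
          congr 2
          ring

theorem HH_eq (z₀ : ℂ) : HH z₀ = (∫ t in Ioi (0 : ℝ), hc z₀ t * (om t : ℂ)) - (kap : ℂ) := by
  have hq : IntegrableOn (fun t : ℝ =>
      (((Real.exp (-t) - (Real.Gamma (1 + t))⁻¹) / t : ℝ) : ℂ)) (Ioi 0) := quot_int.ofReal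
  unfold HH kap
  rw [← integral_complex_ofReal, ← integral_sub (hcom_int z₀) hq]
  refine setIntegral_congr_fun measurableSet_Ioi fun t ht => ?_
  have ht' : (0 : ℝ) < t := ht
  have htc : (t : ℂ) ≠ 0 := by exact_mod_cast ht'.ne'
  unfold hc om
  rw [if_pos ht']
  push_cast
  field_simp
  ring

theorem norm_log_HS {a : ℝ} (ha : 1 ≤ a) {z : ℂ} (hz : z ∈ HS a) : ‖log z‖ ≤ 7 + 1 * z.re := by
  refine (norm_log_le (ha.trans hz.1)).trans ?_
  have h5 := Complex.norm_le_abs_re_add_abs_im z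
  rw [abs_of_nonneg (by have := hz.1; linarith : 0 ≤ z.re)] at h5
  have h6 := hz.2
  have := Real.pi_lt_four
  linarith

/-- the contour integral of the rotated logarithm -/
theorem J_logz {b : ℝ} {z₀ : ℂ} (hb1 : 1 ≤ b) (hb : ‖z₀‖ + 1 ≤ b) :
    J b (fun z => log (z - z₀)) = -HH z₀ ∧ Adm b (fun z => log (z - z₀)) := by
  have hb0 : 0 ≤ b := by linarith
  have hre : ∀ z ∈ HS b, 1 ≤ (z - z₀).re := by
    intro z hz
    rw [Complex.sub_re]
    have h1 := Complex.re_le_norm z₀
    have := hz.1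
    linarith
  have hnz : ∀ z ∈ HS b, ‖log (z - z₀)‖ ≤ (7 + ‖z₀‖) + 1 * z.re := by
    intro z hz
    refine (norm_log_le (hre z hz)).trans ?_
    have h3 := norm_sub_le z z₀
    have h5 := Complex.norm_le_abs_re_add_abs_im z
    rw [abs_of_nonneg (by have := hz.1; linarith : 0 ≤ z.re)] at h5
    have h6 := hz.2
    have := Real.pi_lt_four
    linarith
  have a1 : Adm b log := adm_log1.mono hb1
  have a2 : Adm b (fun z => log (z - z₀)) := by
    refine ⟨?_, 7 + ‖z₀‖, 1, by positivity, by norm_num, hnz⟩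
    refine ContinuousOn.clog (by fun_prop) fun z hz => ?_
    left
    have := hre z hz
    linarith
  have e1 : ∀ z ∈ HS b, log z - log (z - z₀) =
      ∫ t in Ioi (0 : ℝ), exp (-(z * t)) * hc z₀ t := fun z hz =>
    frul3 (hb1.trans hz.1) (hre z hz)
  have e2 := J_congr e1
  rw [J_sub hb0 a1 a2, J_hc hb0 hb] at e2
  have e3 : J b log = (kap : ℂ) := by
    rw [← J_log_eq]
    symm
    refine J_shift' zero_le_one hb1 adm_log1 ?_
    intro z hz
    refine (differentiableAt_id.clog ?_).differentiableWithinAt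
    left
    have := hz.1
    simp only [id]
    linarith
  refine ⟨?_, a2⟩
  rw [HH_eq, ← e2, e3]
  ring

theorem sing : S_SING := by
  intro ι _ lam c G D γ hγ _ x₁ x₀ h0 h01' h1 m Q hQ hQp hQ2 hΦ hcont
  have h01 : x₁ ≤ x₀ := h01'.le
  obtain ⟨CG, hCG⟩ := D.Gb
  have hx0 : 0 ≤ x₀ := h0.trans h01
  -- the branch of the logarithm
  obtain ⟨δ, hδ, hbr⟩ : ∃ δ > 0, ∀ w : ℂ, dist w 2 < δ →
      G w - ser lam c w = m * log (w - x₀) + log (Q w) := by
    set d : ℂ → ℂ := fun w => G w - ser lam c w - m * log (w - x₀) - log (Q w) with hd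
    have hs2 : (2 : ℂ) - x₀ ∈ slitPlane := by
      left
      simp
      linarith
    have hQ2a : AnalyticAt ℂ Q 2 := by
      have := hQ 2 ⟨by linarith, le_rfl⟩
      simpa using this
    have hQ2s : Q 2 ∈ slitPlane := by
      have := hQp 2 ⟨by linarith, le_rfl⟩
      simpa using this
    have hdc : ContinuousAt d 2 := by
      refine ContinuousAt.sub (ContinuousAt.sub (ContinuousAt.sub
        (D.Gd 2 (by norm_num)).continuousAt hcont) ?_) ?_
      · refine continuousAt_const.mul (ContinuousAt.clog (by fun_prop) hs2)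
      · exact hQ2a.continuousAt.clog hQ2s
    have hexp : ∀ᶠ w in 𝓝 (2 : ℂ), exp (d w) = 1 := by
      have e1 : ∀ᶠ w in 𝓝 (2 : ℂ), w - (x₀ : ℂ) ∈ slitPlane := by
        have : ContinuousAt (fun w : ℂ => w - (x₀ : ℂ)) 2 := by fun_prop
        exact this.eventually (isOpen_slitPlane.mem_nhds hs2)
      have e2 : ∀ᶠ w in 𝓝 (2 : ℂ), Q w ∈ slitPlane :=
        hQ2a.continuousAt.eventually (isOpen_slitPlane.mem_nhds hQ2s)
      filter_upwards [hΦ, e1, e2] with w h3 h4 h5
      have h6 := slitPlane_ne_zero h4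
      have h7 := slitPlane_ne_zero h5
      rw [hd]
      simp only
      rw [Complex.exp_sub, Complex.exp_sub, h3, Complex.exp_int_mul, Complex.exp_log h6,
        Complex.exp_log h7]
      field_simp
    have hd2 : d 2 = 0 := by
      have e1 := hexp.self_of_nhds
      have e2 : (d 2).im = 0 := by
        rw [hd]
        simp only [Complex.sub_im, D.G2, SData.ser_two lam c, hQ2, sub_zero, Complex.mul_im,
          Complex.intCast_re, Complex.intCast_im, zero_mul, add_zero, zero_sub, neg_eq_zero]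
        have : (2 : ℂ) - x₀ = ((2 - x₀ : ℝ) : ℂ) := by push_cast; rfl
        rw [this, ← Complex.ofReal_log (by linarith), Complex.ofReal_im, mul_zero]
      have e3 : d 2 = ((d 2).re : ℂ) := by
        apply Complex.ext <;> simp [e2]
      rw [e3, ← Complex.ofReal_exp] at e1
      have e4 : Real.exp (d 2).re = 1 := by exact_mod_cast e1
      rw [Real.exp_eq_one_iff] at e4
      rw [e3, e4]
      simp
    have hsmall : ∀ᶠ w in 𝓝 (2 : ℂ), ‖d w‖ < 1 := by
      have := hdc.norm
      have h3 : ‖d 2‖ < 1 := by rw [hd2]; simp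
      exact this.eventually (gt_mem_nhds h3)
    have hz : ∀ᶠ w in 𝓝 (2 : ℂ), d w = 0 := by
      filter_upwards [hexp, hsmall] with w e1 e2
      obtain ⟨n, hn⟩ := Complex.exp_eq_one_iff.1 e1
      by_cases hn0 : n = 0
      · rw [hn, hn0]; simp
      · exfalso
        rw [hn] at e2
        rw [norm_mul, norm_mul, norm_mul, Complex.norm_I, Complex.norm_real, Real.norm_eq_abs,
          abs_of_pos Real.pi_pos, Complex.norm_intCast] at e2
        have : (1 : ℝ) ≤ |(n : ℝ)| := by
          have := Int.one_le_abs hn0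
          exact_mod_cast this
        have h3 := Real.pi_gt_three
        norm_num at e2
        nlinarith
    obtain ⟨δ, hδ, h3⟩ := Metric.eventually_nhds_iff.1 hz
    refine ⟨δ, hδ, fun w hw => ?_⟩
    have := h3 hw
    rw [hd] at this
    simp only at this
    linear_combination this
  -- the thin rectangle
  obtain ⟨δ₂, hδ₂, M, hM0, hM, hQd⟩ : ∃ δ₂ > 0, ∃ M : ℝ, 0 ≤ M ∧ (∀ w : ℂ, x₁ ≤ w.re → w.re ≤ 2 →
      |w.im| ≤ δ₂ → ‖log (Q w)‖ ≤ M) ∧ (∀ w : ℂ, x₁ ≤ w.re → w.re ≤ 2 →
      |w.im| ≤ δ₂ → DifferentiableAt ℂ (fun w => log (Q w)) w) := by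
    set Kc : Set ℂ := (fun x : ℝ => (x : ℂ)) '' Icc x₁ 2 with hKc
    have hKcc : IsCompact Kc := isCompact_Icc.image (by fun_prop)
    set U : Set ℂ := {w | AnalyticAt ℂ Q w ∧ Q w ∈ slitPlane} with hU
    have hUo : IsOpen U := by
      rw [isOpen_iff_mem_nhds]
      rintro w ⟨hw1, hw2⟩
      filter_upwards [hw1.eventually_analyticAt,
        hw1.continuousAt.eventually (isOpen_slitPlane.mem_nhds hw2)] with v h3 h4
      exact ⟨h3, h4⟩
    have hKU : Kc ⊆ U := by
      rintro _ ⟨x, hx, rfl⟩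
      exact ⟨hQ x hx, hQp x hx⟩
    obtain ⟨δ₂, hδ₂, hsub⟩ := hKcc.exists_cthickening_subset_open hUo hKU
    have hcc : IsCompact (Metric.cthickening δ₂ Kc) := hKcc.cthickening
    have hlc : ContinuousOn (fun w => log (Q w)) (Metric.cthickening δ₂ Kc) := by
      intro w hw
      obtain ⟨h3, h4⟩ := hsub hw
      exact (h3.continuousAt.clog h4).continuousWithinAt
    obtain ⟨M, hM⟩ := hcc.exists_bound_of_continuousOn hlc
    have hmem : ∀ w : ℂ, x₁ ≤ w.re → w.re ≤ 2 → |w.im| ≤ δ₂ → w ∈ Metric.cthickening δ₂ Kc := by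
      intro w h3 h4 h5
      refine Metric.mem_cthickening_of_dist_le w (w.re : ℂ) δ₂ Kc ⟨w.re, ⟨h3, h4⟩, rfl⟩ ?_
      rw [Complex.dist_eq]
      have : w - (w.re : ℂ) = (w.im : ℂ) * I := by
        apply Complex.ext <;> simp
      rw [this, norm_mul, Complex.norm_I, mul_one, Complex.norm_real, Real.norm_eq_abs]
      exact h5
    refine ⟨δ₂, hδ₂, |M|, abs_nonneg _, fun w h3 h4 h5 => (hM w (hmem w h3 h4 h5)).trans
      (le_abs_self M), fun w h3 h4 h5 => ?_⟩
    obtain ⟨h6, h7⟩ := hsub (hmem w h3 h4 h5)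
    exact h6.differentiableAt.clog h7
  set C3 : ℝ := |CG| + ∑' i, |c i| * Real.exp (-(2 * lam i)) with hC3
  have hC30 : 0 ≤ C3 := by
    have : 0 ≤ ∑' i, |c i| * Real.exp (-(2 * lam i)) := tsum_nonneg fun i => by positivity
    positivity
  obtain ⟨a, ha⟩ : ∃ a : ℝ, a = 1 + γ := ⟨_, rfl⟩
  have ha0 : 0 ≤ a := by linarith
  refine ⟨(Real.exp (Real.exp a) + 1) * |CG| + |(m : ℝ)| * (8 + γ) + 2 * M + C3,
    (Real.pi + γ) / δ + (Real.pi + γ) / δ₂ + 2 + γ, fun T hT => ?_⟩
  have hpi := Real.pi_pos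
  have hq1 : 0 < (Real.pi + γ) / δ := by positivity
  have hq2 : 0 < (Real.pi + γ) / δ₂ := by positivity
  have hTγ : γ + 2 ≤ T := by linarith
  have hT1 : 1 ≤ T := by linarith
  have hT0 : 0 < T := by linarith
  have hTδ : (Real.pi + γ) / T < δ := by
    rw [div_lt_iff₀ hT0, mul_comm, ← div_lt_iff₀ hδ]; linarith
  have hTδ₂ : (Real.pi + γ) / T ≤ δ₂ := by
    rw [div_le_iff₀ hT0, mul_comm, ← div_le_iff₀ hδ₂]; linarith
  set b : ℝ := 2 * T with hb
  have hb0 : 0 ≤ b := by positivity
  have hb1 : 1 ≤ b := by linarith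
  have hab1 : a ≤ b := by linarith
  have hTc : (T : ℂ) ≠ 0 := by exact_mod_cast hT0.ne'
  obtain ⟨w, hw⟩ : ∃ w : ℂ → ℂ, w = fun z => (z - γ * I) / T := ⟨_, rfl⟩
  have hdre : ∀ z : ℂ, (w z).re = z.re / T := fun z => by rw [hw]; simp
  have hdim : ∀ z : ℂ, (w z).im = (z.im - γ) / T := fun z => by rw [hw]; simp
  have hwd : Differentiable ℂ w := by rw [hw]; fun_prop
  -- sector bound on the half strip
  have hsec : ∀ z ∈ HS a, ‖G (w z)‖ ≤ |CG| := by
    intro z hz
    have hz1 := hz.1
    have h3 : 0 < (w z).re := by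
      rw [hdre]
      have : 0 < z.re := by linarith
      positivity
    refine (hCG _ h3 ?_).trans (le_abs_self _)
    rw [hdre, hw]
    simp only
    rw [norm_div, Complex.norm_real, Real.norm_eq_abs, abs_of_pos hT0, ← mul_div_assoc]
    refine div_le_div_of_nonneg_right ?_ hT0.le
    have h4 := Complex.norm_le_abs_re_add_abs_im (z - γ * I)
    have h5 : (z - γ * I).re = z.re := by simp
    have h6 : (z - γ * I).im = z.im - γ := by simp
    rw [h5, h6, abs_of_nonneg (by linarith : 0 ≤ z.re)] at h4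
    have h7 : |z.im - γ| ≤ Real.pi + γ := by
      have h8 := abs_le.1 hz.2
      rw [abs_le]; constructor <;> linarith
    have := Real.pi_lt_four
    linarith
  have hGda : ∀ z ∈ HS a, DifferentiableAt ℂ (fun z : ℂ => G (w z)) z := by
    intro z hz
    have hz1 := hz.1
    have h3 : 0 < (w z).re := by
      rw [hdre]
      have : 0 < z.re := by linarith
      positivity
    exact DifferentiableAt.comp (g := G) (f := w) z (D.Gd _ h3) (hwd z)
  have admG : Adm a (fun z : ℂ => G (w z)) :=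
    ⟨fun z hz => (hGda z hz).continuousAt.continuousWithinAt, |CG|, 0, abs_nonneg _, le_rfl,
      fun z hz => by have := hsec z hz; linarith⟩
  have hre2 : ∀ z ∈ HS b, 2 ≤ (w z).re := by
    intro z hz
    rw [hdre, le_div_iff₀ hT0]
    exact hz.1
  have admS : Adm b (fun z : ℂ => ser lam c (w z)) := by
    refine ⟨D.ser_cont.comp hwd.continuous.continuousOn hre2,
      ∑' i, |c i| * Real.exp (-(2 * lam i)), 0,
      tsum_nonneg fun i => by positivity, le_rfl, fun z hz => ?_⟩
    have := D.ser_le (hre2 z hz)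
    linarith
  -- E1, E2, E3
  obtain ⟨E1, E1'⟩ := cmean_eq (γ := γ) D hT1 hb.symm.le
  have E1'' : J b (fun z => ser lam c (w z)) = cmean lam c γ T := by rw [hw]; exact E1
  have E3 : J b (fun z => G (w z)) = J a (fun z => G (w z)) :=
    (J_shift' ha0 hab1 admG fun z hz => (hGda z hz).differentiableWithinAt).symm
  have E3' := norm_J_le (a := a) ha0 hsec
  have E2 : J b (fun z => G (w z) - ser lam c (w z)) =
      J a (fun z => G (w z)) - cmean lam c γ T := by
    rw [J_sub hb0 (admG.mono hab1) admS, E3, E1'']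
  -- E4
  have hellb : ∀ z ∈ HS b, ‖G (w z) - ser lam c (w z)‖ ≤ C3 := by
    intro z hz
    refine (norm_sub_le _ _).trans (add_le_add (hsec z (HS_mono hab1 hz)) (D.ser_le (hre2 z hz)))
  have admL : Adm b (fun z => G (w z) - ser lam c (w z)) :=
    ⟨(admG.mono hab1).cont.sub admS.cont, C3, 0, hC30, le_rfl, fun z hz => by
      have := hellb z hz; linarith⟩
  have E4 : ‖∫ x in Ioi b, rho (fun z => G (w z) - ser lam c (w z)) x‖ ≤ C3 := by
    have := norm_rays_le (Φ := fun z => G (w z) - ser lam c (w z)) hb0 hC30 le_rfl (s := Ioi b)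
      (fun x hx => by have := hellb _ (up_mem (le_of_lt hx)); linarith)
      (fun x hx => by have := hellb _ (down_mem (le_of_lt hx)); linarith) subset_rfl measurableSet_Ioi
    linarith
  -- the logarithm
  obtain ⟨z₀, hz₀⟩ : ∃ z₀ : ℂ, z₀ = x₀ * T + γ * I := ⟨_, rfl⟩
  have hz₀n : ‖z₀‖ + 1 ≤ b := by
    have h3 : ‖z₀‖ ≤ x₀ * T + γ := by
      rw [hz₀]
      refine (norm_add_le _ _).trans ?_
      rw [norm_mul, norm_mul, Complex.norm_I, mul_one, Complex.norm_real, Complex.norm_real,
        Complex.norm_real, Real.norm_eq_abs, Real.norm_eq_abs, Real.norm_eq_abs,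
        abs_of_nonneg hx0, abs_of_pos hT0, abs_of_nonneg hγ]
    nlinarith
  obtain ⟨L1, L2⟩ := J_logz hb1 hz₀n
  have hwl : ∀ z ∈ HS b, log (w z - x₀) =
      log (z - z₀) - Real.log T * exp (-(z * ((0 : ℝ) : ℂ))) := by
    intro z hz
    have hz0 : z - z₀ ≠ 0 := by
      intro h
      have h3 := congrArg Complex.re h
      rw [Complex.sub_re, Complex.zero_re] at h3
      have h4 := Complex.re_le_norm z₀
      have := hz.1
      linarith
    have h3 : w z - x₀ = ((T⁻¹ : ℝ) : ℂ) * (z - z₀) := by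
      rw [hw, hz₀]
      push_cast
      field_simp
      ring
    rw [h3, Complex.log_ofReal_mul (by positivity) hz0, Real.log_inv]
    simp
    ring
  have a5 : Adm b (fun z => (Real.log T : ℂ) * exp (-(z * ((0 : ℝ) : ℂ)))) := by
    refine ⟨by fun_prop, |Real.log T|, 0, abs_nonneg _, le_rfl, fun z _ => ?_⟩
    simp
  have E7 : J b (fun z => log (w z - x₀)) = -HH z₀ - Real.log T := by
    rw [J_congr hwl, J_sub hb0 L2 a5, J_const_mul, J_exp_zero, mul_one, L1]
  have hlogb : ∀ z ∈ HS b, ‖log (w z - x₀)‖ ≤ (7 + γ) + 1 * z.re := by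
    intro z hz
    have hz0 : 0 ≤ z.re := by have := hz.1; linarith
    have h3 : 1 ≤ (w z - x₀).re := by
      rw [Complex.sub_re, Complex.ofReal_re]
      have := hre2 z hz
      linarith
    refine (norm_log_le h3).trans ?_
    have h4 : ‖w z - x₀‖ ≤ (‖z‖ + γ) + 1 := by
      refine (norm_sub_le _ _).trans ?_
      rw [Complex.norm_real, Real.norm_eq_abs, abs_of_nonneg hx0, hw]
      simp only
      rw [norm_div, Complex.norm_real, Real.norm_eq_abs, abs_of_pos hT0]
      have h5 : ‖z - γ * I‖ ≤ ‖z‖ + γ := by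
        refine (norm_sub_le _ _).trans ?_
        rw [norm_mul, Complex.norm_I, mul_one, Complex.norm_real, Real.norm_eq_abs,
          abs_of_nonneg hγ]
      have h6 : ‖z - γ * I‖ / T ≤ ‖z - γ * I‖ := div_le_self (norm_nonneg _) hT1
      linarith
    have h5 : ‖z‖ ≤ z.re + 4 := by
      have h5 := Complex.norm_le_abs_re_add_abs_im z
      rw [abs_of_nonneg hz0] at h5
      have h6 := hz.2
      have := Real.pi_lt_four
      linarith
    linarith
  have admlog : Adm b (fun z => log (w z - x₀)) := by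
    refine ⟨?_, 7 + γ, 1, by positivity, by norm_num, hlogb⟩
    refine ContinuousOn.clog (hwd.continuous.sub continuous_const).continuousOn fun z hz => ?_
    left
    rw [Complex.sub_re, Complex.ofReal_re]
    have := hre2 z hz
    linarith
  have E6 : ‖∫ x in Ioi b, rho (fun z => log (w z - x₀)) x‖ ≤ 8 + γ := by
    have := norm_rays_le (Φ := fun z => log (w z - x₀)) (A := 7 + γ) (B := 1) hb0 (by positivity)
      (by norm_num) (s := Ioi b)
      (fun x hx => by have := hlogb _ (up_mem (le_of_lt hx)); simpa using this)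
      (fun x hx => by have := hlogb _ (down_mem (le_of_lt hx)); simpa using this)
      subset_rfl measurableSet_Ioi
    linarith
  -- the vertical part of `log Q`
  have E8 : V b (fun z => G (w z) - ser lam c (w z)) - m * V b (fun z => log (w z - x₀)) =
      V b (fun z => log (Q (w z))) := by
    have admm : Adm b (fun z => (m : ℂ) * log (w z - x₀)) := by
      refine ⟨continuousOn_const.mul admlog.cont, |(m : ℝ)| * (7 + γ), |(m : ℝ)| * 1,
        by positivity, by positivity, fun z hz => ?_⟩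
      rw [norm_mul, Complex.norm_intCast]
      have := hlogb z hz
      calc |(m : ℝ)| * ‖log (w z - x₀)‖ ≤ |(m : ℝ)| * ((7 + γ) + 1 * z.re) := by gcongr
        _ = _ := by ring
    rw [← V_const_mul, ← V_sub admL admm]
    refine V_congr fun y hy => ?_
    have h3 : dist (w ((b : ℂ) + y * I)) 2 < δ := by
      rw [Complex.dist_eq]
      have : w ((b : ℂ) + y * I) - 2 = (((y - γ) / T : ℝ) : ℂ) * I := by
        rw [hw, hb]
        push_cast
        field_simp
        ring
      rw [this, norm_mul, Complex.norm_I, mul_one, Complex.norm_real, Real.norm_eq_abs, abs_div,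
        abs_of_pos hT0]
      refine (div_le_div_of_nonneg_right ?_ hT0.le).trans_lt hTδ
      have h8 := abs_le.1 hy
      rw [abs_le]; constructor <;> linarith
    rw [hbr _ h3]
    ring
  have hsubr : ∀ z ∈ [[x₁ * T, b]] ×ℂ [[-Real.pi, Real.pi]],
      x₁ ≤ (w z).re ∧ (w z).re ≤ 2 ∧ |(w z).im| ≤ δ₂ := by
    intro z hz
    rw [mem_reProdIm, uIcc_of_le (by nlinarith : x₁ * T ≤ b), uIcc_of_le (by linarith)] at hz
    rw [hdre, hdim]
    refine ⟨?_, ?_, ?_⟩
    · rw [le_div_iff₀ hT0]; exact hz.1.1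
    · rw [div_le_iff₀ hT0]; exact hz.1.2
    · rw [abs_div, abs_of_pos hT0]
      refine (div_le_div_of_nonneg_right ?_ hT0.le).trans hTδ₂
      have h8 := hz.2
      rw [abs_le]; constructor <;> linarith [h8.1, h8.2]
  have hab : x₁ * T ≤ b := by nlinarith
  have ha0' : 0 ≤ x₁ * T := by positivity
  have E9 : V b (fun z => log (Q (w z))) = V (x₁ * T) (fun z => log (Q (w z))) +
      ∫ x in (x₁ * T)..b, rho (fun z => log (Q (w z))) x := by
    refine V_shift fun z hz => ?_
    obtain ⟨h3, h4, h5⟩ := hsubr z hz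
    have h6 : DifferentiableAt ℂ (fun z : ℂ => log (Q (w z))) z :=
      DifferentiableAt.comp (g := fun w => log (Q w)) (f := w) z
        (hQd _ h3 h4 h5) (hwd z)
    exact h6.differentiableWithinAt
  have E10 : ‖V (x₁ * T) (fun z => log (Q (w z)))‖ ≤ Real.exp (Real.exp (x₁ * T)) * M := by
    refine norm_V_le fun y hy => ?_
    obtain ⟨h3, h4, h5⟩ := hsubr ((x₁ * T : ℝ) + y * I) (by
      rw [mem_reProdIm, uIcc_of_le hab, uIcc_of_le (by linarith)]
      refine ⟨⟨?_, ?_⟩, ?_⟩
      · simp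
      · simp; linarith
      · simpa using abs_le.1 hy)
    exact hM _ h3 h4 h5
  have E11 : ‖∫ x in (x₁ * T)..b, rho (fun z => log (Q (w z))) x‖ ≤ M := by
    rw [intervalIntegral.integral_of_le hab]
    have hu : ∀ x ∈ Ioc (x₁ * T) b, ‖log (Q (w (x + Real.pi * I)))‖ ≤ M := by
      intro x hx
      obtain ⟨h3, h4, h5⟩ := hsubr (x + Real.pi * I) (by
        rw [mem_reProdIm, uIcc_of_le hab, uIcc_of_le (by linarith)]
        refine ⟨?_, ?_⟩
        · simpa using Ioc_subset_Icc_self hx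
        · simp; linarith)
      exact hM _ h3 h4 h5
    have hd : ∀ x ∈ Ioc (x₁ * T) b, ‖log (Q (w (x - Real.pi * I)))‖ ≤ M := by
      intro x hx
      obtain ⟨h3, h4, h5⟩ := hsubr (x - Real.pi * I) (by
        rw [mem_reProdIm, uIcc_of_le hab, uIcc_of_le (by linarith)]
        refine ⟨?_, ?_⟩
        · simpa using Ioc_subset_Icc_self hx
        · simp; linarith)
      exact hM _ h3 h4 h5
    have := norm_rays_le (Φ := fun z => log (Q (w z))) ha0' hM0 le_rfl
      (s := Ioc (x₁ * T) b) (fun x hx => by have := hu x hx; linarith)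
      (fun x hx => by have := hd x hx; linarith) Ioc_subset_Ioi_self measurableSet_Ioc
    linarith
  -- conclusion
  have E12 : cmean lam c γ T - m * (Real.log T + HH z₀) =
      J a (fun z => G (w z)) + m * (∫ x in Ioi b, rho (fun z => log (w z - x₀)) x) -
      V (x₁ * T) (fun z => log (Q (w z))) - (∫ x in (x₁ * T)..b, rho (fun z => log (Q (w z))) x) -
      ∫ x in Ioi b, rho (fun z => G (w z) - ser lam c (w z)) x := by
    rw [E9] at E8
    obtain ⟨R, hR⟩ : ∃ R, R = J a (fun z => G (w z)) := ⟨_, rfl⟩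
    rw [← hR] at E2 ⊢
    unfold J at E2 E7
    linear_combination E2 - m * E7 - E8
  have E13 : ‖cmean lam c γ T - m * (Real.log T + HH z₀)‖ ≤
      (Real.exp (Real.exp a) + 1) * |CG| + |(m : ℝ)| * (8 + γ) +
      Real.exp (Real.exp (x₁ * T)) * M + M + C3 := by
    rw [E12]
    refine (norm_sub_le _ _).trans (add_le_add ?_ E4)
    refine (norm_sub_le _ _).trans (add_le_add ?_ E11)
    refine (norm_sub_le _ _).trans (add_le_add ?_ E10)
    refine (norm_add_le _ _).trans (add_le_add E3' ?_)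
    rw [norm_mul, Complex.norm_intCast]
    gcongr
  have E14 : rmean lam c γ T - m * (Real.log T + (HH (x₀ * T + γ * I)).re) =
      (cmean lam c γ T - m * (Real.log T + HH z₀)).re := by
    rw [← hz₀, Complex.sub_re, E1']
    congr 1
    have h3 : (m : ℂ) * ((Real.log T : ℂ) + HH z₀) =
        ((m : ℝ) : ℂ) * (((Real.log T : ℝ) : ℂ) + HH z₀) := by push_cast; rfl
    rw [h3, Complex.re_ofReal_mul, Complex.add_re, Complex.ofReal_re]
  rw [E14]
  refine (Complex.abs_re_le_norm _).trans (E13.trans ?_)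
  set ee := Real.exp (Real.exp (x₁ * T)) with hee
  have h1e : 1 ≤ ee := Real.one_le_exp (Real.exp_pos _).le
  have hX : 0 ≤ (Real.exp (Real.exp a) + 1) * |CG| := by positivity
  have hY : 0 ≤ |(m : ℝ)| * (8 + γ) := by positivity
  nlinarith [mul_nonneg hX (sub_nonneg.2 h1e), mul_nonneg hY (sub_nonneg.2 h1e),
    mul_nonneg hM0 (sub_nonneg.2 h1e), mul_nonneg hC30 (sub_nonneg.2 h1e)]

end Pool.Agent.W125.UR
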